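import Pool.Agent.H26.LDP.Final

/-!
For every fixed theta > 0, in mean square over k <= X the number of primes m^3+k with 1 <= m <= M, where
X^theta <= M <= X^(1/3), equals the number predicted by the density of the primes near k in residue
classes modulo W. Here W is any common multiple of the integers up to Q and the windows have length
W J <= M^3/Q^2; the error is a fixed negative power of Q, relative to the size (M/log X)^2.
-/

namespace Pool.Agent.Results.MP_4d57ea_nt.LocalDensity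

open Finset

theorem result (θ : ℝ) (hθ : 0 < θ) : ∃ C : ℝ, ∀ X M Q W J : ℕ, 2 ≤ X → (X : ℝ) ^ θ ≤ M →
    M ^ 3 ≤ X → 1 ≤ Q → 1 ≤ J → (∀ q : ℕ, 1 ≤ q → q ≤ Q → q ∣ W) → W * J * Q ^ 2 ≤ M ^ 3 →
    ∑ k ∈ Icc 1 X,
        ((((Icc 1 M).filter (fun m => (m ^ 3 + k).Prime)).card : ℝ) -
          (((Icc 1 M ×ˢ range J).filter (fun p => (p.1 ^ 3 + k + p.2 * W).Prime)).card : ℝ) / J) ^ 2 ≤
      C * (Q : ℝ) ^ (-(1 : ℝ) / 24) * X * (M / Real.log X) ^ 2 := by
  obtain ⟨K, _, h⟩ := H26.LDP.final_avg θ hθ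
  exact ⟨K, h⟩

end Pool.Agent.Results.MP_4d57ea_nt.LocalDensity
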