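import Pool.Agent.H19.Wc.Dim2

/-!
# Waring's problem with shifted k-th powers: dimension of the set of exceptional shifts
-/

set_option autoImplicit false

open MeasureTheory

theorem Pool.Agent.H12.Old.ShiftedPowers.retired (k s t : ℕ) (hk : 4 ≤ k)
    (hs : k + t < s) (h : k < 2 ^ t * (s - t - k)) :
    dimH {a : Fin s → ℝ | ¬ ∀ eta : ℝ, 0 < eta → ∃ T : ℝ, ∀ tau : ℝ, T ≤ tau →
      ∃ x : Fin s → ℕ, tau ≤ ∑ i, ((x i : ℝ) + a i) ^ k ∧
        ∑ i, ((x i : ℝ) + a i) ^ k < tau + eta} ≤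
      ENNReal.ofReal ((s : ℝ) -
        (2 ^ t * ((s : ℝ) - t - k) - k) / ((2 ^ (t + 1) - 1) * ((k : ℝ) - 1))) := by
  obtain ⟨s0, rfl⟩ : ∃ s0, s = s0 + t := ⟨s - t, by omega⟩
  have h1 : s0 + t - t - k = s0 - k := by omega
  rw [h1] at h
  have hs0 : k + 1 ≤ s0 := by omega
  have h2 : (k : ℝ) < 2 ^ t * ((s0 : ℝ) - k) := by
    have h3 : ((s0 - k : ℕ) : ℝ) = (s0 : ℝ) - k := by
      rw [Nat.cast_sub (by omega)]
    rw [← h3]
    exact_mod_cast h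
  have h4 := Pool.H19.Wc.dim_excR k s0 t hk hs0 h2
  have h5 : (((s0 + t : ℕ) : ℝ) - t - k) = (s0 : ℝ) - k := by
    push_cast
    ring
  rw [h5]
  exact h4
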