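import Pool.Agent.H21.LA.La
import Pool.Agent.H21.LA.Cp
import Pool.Agent.H21.CP.Med
import Pool.Agent.H21.GH.Dens
import Pool.Agent.H21.GH.Half
import Pool.Agent.H38.KT.ClaimL
import Pool.Agent.H38.KT.NcL

/-!
Density of the tuples for which the prime tuples conjecture holds: for `r` colours and a suitable number `q`, in every
large cube a proportion `(k+1) (13/(50 r))^k - ε` of the `(k+l)`-tuples of multiples of `q` (or of any multiple of `q`)
is such that, together with `0`, the first `k+1` entries have all patterns of primes of one colour infinitely often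
while the other `l` entries give almost primes.  Half of the multiples of a suitable number `q` are gaps between
consecutive primes infinitely often, with lower density in every long interval; for every even number a third of its
multiples.  In every large admissible set almost all `m`-subsets of a subset containing 26 per cent of the elements,
and a proportion `(1-ε) (13/50)^(m-1)` of all `m`-subsets, satisfy the prime tuples conjecture, with exact patterns
and with almost all `l`-subsets as companions which are almost primes.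
-/

namespace Pool.Agent.Results.MP_8923e7_nt.TupleDensity

open Finset

/-- There are infinitely many pairs of consecutive primes with difference `d`. -/
def Gap (d : ℕ) : Prop :=
  {N : ℕ | N.Prime ∧ (N + d).Prime ∧ ∀ x : ℕ, N < x → x < N + d → ¬ x.Prime}.Infinite

/-- There are infinitely many pairs of primes with difference `h`. -/
def DePolignac (h : ℕ) : Prop := {N : ℕ | N.Prime ∧ (N + h).Prime}.Infinite

/-- `H` is admissible: for every prime `p` some translate of `H` contains no multiple of `p`. -/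
def Admissible (H : Finset ℕ) : Prop :=
  ∀ p : ℕ, p.Prime → ∃ a : ℕ, ∀ h ∈ H, ¬ p ∣ a + h

/-- at most two prime factors, counted with multiplicity, and all of them larger than `n^(1/8)` -/
def AlmostPrime (n : ℕ) : Prop :=
  2 ≤ n ∧ n.primeFactorsList.length ≤ 2 ∧ ∀ p : ℕ, p.Prime → p ∣ n → n < p ^ 8

/-- The numbers `0, x_1, …, x_(k+l)` are distinct and there is a colour `i` such that for every set `F` of indices
there are infinitely many natural numbers `N` such that (with `x_0 = 0`) for `j ≤ k` the number `N + x_j` is a prime of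
colour `i` if and only if `j ∈ F`, and for `j > k` the number `N + x_j` is an almost prime. -/
def Full {r : ℕ} (k l : ℕ) (c : ℕ → Fin r) (x : Fin (k + l) → ℤ) : Prop :=
  Function.Injective (Fin.cons 0 x : Fin (k + l + 1) → ℤ) ∧
  ∃ i : Fin r, ∀ F : Finset (Fin (k + l + 1)),
    {N : ℕ | ∀ j : Fin (k + l + 1),
      ((j : ℕ) ≤ k → ((∃ p : ℕ, p.Prime ∧ c p = i ∧
        (p : ℤ) = (N : ℤ) + (Fin.cons 0 x : Fin (k + l + 1) → ℤ) j) ↔ j ∈ F)) ∧
      (k < (j : ℕ) → ∃ n : ℕ, AlmostPrime n ∧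
        (n : ℤ) = (N : ℤ) + (Fin.cons 0 x : Fin (k + l + 1) → ℤ) j)}.Infinite

/-- For every `F ⊆ B` there are infinitely many `N` such that, for all `b ∈ B`, `N + b` is a prime of colour
`i` if and only if `b ∈ F`, and such that all the `N + b`, `b ∈ B'`, are almost primes. -/
def Realised {r : ℕ} (c : ℕ → Fin r) (i : Fin r) (B B' : Finset ℕ) : Prop :=
  ∀ F : Finset ℕ, F ⊆ B → {N : ℕ | (∀ b ∈ B, ((N + b).Prime ∧ c (N + b) = i) ↔ b ∈ F) ∧
    ∀ b ∈ B', AlmostPrime (N + b)}.Infinite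

open Classical in
/-- `(B, B')` is realised for at least `(1-ε) C(|H|, l)` of the `l`-subsets `B'` of `H`. -/
def Shattered {r : ℕ} (c : ℕ → Fin r) (i : Fin r) (H : Finset ℕ) (l : ℕ) (ε : ℝ) (B : Finset ℕ) :
    Prop :=
  (1 - ε) * (H.card.choose l : ℝ) ≤
    (((powersetCard l H).filter (fun B' => Realised c i B B')).card : ℝ)

open Classical in
private theorem part0 (r k l : ℕ) (c : ℕ → Fin r) (ε : ℝ) (hkl : 1 ≤ k + l) (hε : 0 < ε) :
    ∃ q : ℕ, 0 < q ∧ ∀ Q : ℕ, 0 < Q → q ∣ Q → ∃ X₀ : ℕ, ∀ X : ℕ, X₀ ≤ X → ∀ M : Fin (k + l) → ℤ,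
      (((k : ℝ) + 1) * (13 / (50 * (r : ℝ))) ^ k - ε) * (X : ℝ) ^ (k + l) ≤
        (((Fintype.piFinset fun j => Ico (M j) (M j + X)).filter
          (fun n : Fin (k + l) → ℤ => Full k l c fun j => (Q : ℤ) * n j)).card : ℝ) := by
  rcases Nat.eq_zero_or_pos r with hr | hr
  · subst hr
    exact (c 0).elim0
  have hr1 : (1 : ℝ) ≤ r := by exact_mod_cast hr
  have h1 : 13 / (50 * (r : ℝ)) ≤ 1 / 2 := by
    rw [div_le_div_iff₀ (by positivity) (by norm_num)]
    linarith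
  obtain ⟨q, hq, h⟩ := Pool.Agent.H38.KT.densityL k l hkl (13 / (50 * (r : ℝ))) (by positivity) h1
    (Pool.Agent.H38.KT.RbadL k l Pool.Agent.H21.CP.Q2 c) (Pool.Agent.H38.KT.nckl r k l c) ε hε
  refine ⟨q, hq, fun Q hQ hqQ => ?_⟩
  obtain ⟨X0, hX⟩ := h Q hQ hqQ
  refine ⟨X0, fun X hX0 M => (hX X hX0 M).trans (le_of_eq ?_)⟩
  congr 2
  ext n
  simp only [mem_filter]
  refine and_congr_right fun _ => ?_
  exact not_not

private theorem dePol_of_full (c : ℕ → Fin 1) (x : Fin (1 + 0) → ℤ) (h : Full 1 0 c x) :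
    DePolignac (x 0).natAbs := by
  obtain ⟨_, i, hi⟩ := h
  have h1 := hi univ
  unfold DePolignac
  have h2 : ∀ N : ℕ, N ∈ {N : ℕ | ∀ j : Fin (1 + 0 + 1),
      ((j : ℕ) ≤ 1 → ((∃ p : ℕ, p.Prime ∧ c p = i ∧
        (p : ℤ) = (N : ℤ) + (Fin.cons 0 x : Fin (1 + 0 + 1) → ℤ) j) ↔ j ∈ (univ : Finset (Fin (1 + 0 + 1))))) ∧
      (1 < (j : ℕ) → ∃ n : ℕ, AlmostPrime n ∧
        (n : ℤ) = (N : ℤ) + (Fin.cons 0 x : Fin (1 + 0 + 1) → ℤ) j)} →
      N.Prime ∧ ∃ p : ℕ, p.Prime ∧ (p : ℤ) = (N : ℤ) + x 0 := by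
    intro N hN
    have h3 := ((hN 0).1 (by simp)).mpr (mem_univ _)
    have h4 := ((hN 1).1 (by simp)).mpr (mem_univ _)
    obtain ⟨p, hp, _, hp2⟩ := h3
    obtain ⟨p', hp', _, hp2'⟩ := h4
    refine ⟨?_, p', hp', ?_⟩
    · have : (p : ℤ) = N := by simpa using hp2
      have : p = N := by exact_mod_cast this
      rwa [← this]
    · exact hp2'
  by_cases hx : 0 ≤ x 0
  · refine h1.mono ?_
    intro N hN
    obtain ⟨h3, p, hp, hp2⟩ := h2 N hN
    refine ⟨h3, ?_⟩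
    have : N + (x 0).natAbs = p := by omega
    rwa [this]
  · have h5 : Set.InjOn (fun N : ℕ => N - (x 0).natAbs) {N : ℕ | N.Prime ∧ ∃ p : ℕ, p.Prime ∧ (p : ℤ) = (N : ℤ) + x 0} := by
      intro a ha b hb hab
      obtain ⟨_, p, hp, hp2⟩ := ha
      obtain ⟨_, p', hp', hp2'⟩ := hb
      have := hp.pos
      have := hp'.pos
      simp only at hab
      omega
    have h6 : {N : ℕ | N.Prime ∧ ∃ p : ℕ, p.Prime ∧ (p : ℤ) = (N : ℤ) + x 0}.Infinite :=
      h1.mono (fun N hN => h2 N hN)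
    refine (h6.image h5).mono ?_
    rintro _ ⟨N, ⟨hN1, p, hp, hp2⟩, rfl⟩
    have h7 : N - (x 0).natAbs = p := by
      have := hp.pos
      omega
    have h8 : p + (x 0).natAbs = N := by
      have := hp.pos
      omega
    simp only [Set.mem_ofPred_eq]
    rw [h7]
    exact ⟨hp, by rwa [h8]⟩

open Classical in
private theorem part01 (ε : ℝ) (hε : 0 < ε) :
    ∃ q : ℕ, 0 < q ∧ ∀ Q : ℕ, 0 < Q → q ∣ Q → ∃ X₀ : ℕ, ∀ X : ℕ, X₀ ≤ X → ∀ M a : ℤ,
      (1 / 25 - ε) * (X : ℝ) ≤ (((Ico M (M + X)).filter (fun n : ℤ =>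
        DePolignac ((Q : ℤ) * n).natAbs ∧ DePolignac ((Q : ℤ) * (a - n)).natAbs)).card : ℝ) := by
  obtain ⟨q, hq, h⟩ := part0 1 1 0 (fun _ => 0) (ε / 2) (by norm_num) (by positivity)
  refine ⟨q, hq, fun Q hQ hqQ => ?_⟩
  obtain ⟨X₀, hX⟩ := h Q hQ hqQ
  refine ⟨X₀, fun X hX' M a => ?_⟩
  -- one interval
  have hone : ∀ M : ℤ, (13 / 25 - ε / 2) * (X : ℝ) ≤ (((Ico M (M + X)).filter (fun n : ℤ =>
      DePolignac ((Q : ℤ) * n).natAbs)).card : ℝ) := by
    intro M
    have h1 := hX X hX' (fun _ => M)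
    have h2 : ((((1 : ℕ) : ℝ) + 1) * (13 / (50 * (((1 : ℕ) : ℝ)))) ^ 1 - ε / 2) * (X : ℝ) ^ (1 + 0) =
        (13 / 25 - ε / 2) * (X : ℝ) := by
      norm_num
    rw [h2] at h1
    refine h1.trans ?_
    have h3 : ((Fintype.piFinset fun _ : Fin (1 + 0) => Ico M (M + X)).filter
        (fun n : Fin (1 + 0) → ℤ => Full 1 0 (fun _ => (0 : Fin 1)) fun j => (Q : ℤ) * n j)).card ≤
        ((Ico M (M + X)).filter (fun n : ℤ => DePolignac ((Q : ℤ) * n).natAbs)).card := by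
      apply card_le_card_of_injOn (fun n => n 0)
      · intro n hn
        rw [mem_coe, mem_filter, Fintype.mem_piFinset] at hn
        rw [mem_coe, mem_filter]
        exact ⟨hn.1 0, dePol_of_full _ _ hn.2⟩
      · intro n _ m _ hnm
        funext j
        have : j = 0 := Fin.ext (by have := j.2; simp at this ⊢)
        rw [this]
        exact hnm
    exact_mod_cast h3
  -- the reflected interval
  have h1 := hone M
  have h2 := hone (a - M - X + 1)
  have h3 : ((Ico (a - M - X + 1) (a - M - X + 1 + X)).filter (fun n : ℤ =>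
      DePolignac ((Q : ℤ) * n).natAbs)).card ≤
      ((Ico M (M + X)).filter (fun n : ℤ => DePolignac ((Q : ℤ) * (a - n)).natAbs)).card := by
    apply card_le_card_of_injOn (fun n => a - n)
    · intro n hn
      rw [mem_coe, mem_filter, mem_Ico] at hn
      rw [mem_coe, mem_filter, mem_Ico]
      obtain ⟨⟨h7, h8⟩, h9⟩ := hn
      refine ⟨⟨show M ≤ a - n by omega, show a - n < M + X by omega⟩, ?_⟩
      have : a - (a - n) = n := by ring
      show DePolignac ((Q : ℤ) * (a - (a - n))).natAbs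
      rw [this]
      exact h9
    · intro n _ m _ hnm
      simp only at hnm
      omega
  have h3' : (((Ico (a - M - X + 1) (a - M - X + 1 + X)).filter (fun n : ℤ =>
      DePolignac ((Q : ℤ) * n).natAbs)).card : ℝ) ≤
      (((Ico M (M + X)).filter (fun n : ℤ => DePolignac ((Q : ℤ) * (a - n)).natAbs)).card : ℝ) := by
    exact_mod_cast h3
  have h4 := card_union_add_card_inter ((Ico M (M + X)).filter (fun n : ℤ => DePolignac ((Q : ℤ) * n).natAbs))
    ((Ico M (M + X)).filter (fun n : ℤ => DePolignac ((Q : ℤ) * (a - n)).natAbs))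
  have h5 : (((Ico M (M + X)).filter (fun n : ℤ => DePolignac ((Q : ℤ) * n).natAbs)) ∪
      ((Ico M (M + X)).filter (fun n : ℤ => DePolignac ((Q : ℤ) * (a - n)).natAbs))).card ≤ X := by
    have h6 := card_le_card (union_subset (filter_subset (fun n : ℤ => DePolignac ((Q : ℤ) * n).natAbs) (Ico M (M + X)))
      (filter_subset (fun n : ℤ => DePolignac ((Q : ℤ) * (a - n)).natAbs) (Ico M (M + X))))
    rw [Int.card_Ico] at h6
    omega
  rw [← filter_and] at h4
  have h4' : (((Ico M (M + X)).filter (fun n : ℤ => DePolignac ((Q : ℤ) * n).natAbs)).card : ℝ) +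
      (((Ico M (M + X)).filter (fun n : ℤ => DePolignac ((Q : ℤ) * (a - n)).natAbs)).card : ℝ) ≤
      X + (((Ico M (M + X)).filter (fun n : ℤ =>
        DePolignac ((Q : ℤ) * n).natAbs ∧ DePolignac ((Q : ℤ) * (a - n)).natAbs)).card : ℝ) := by
    have := Nat.add_le_add_right h5 (((Ico M (M + X)).filter (fun n : ℤ =>
        DePolignac ((Q : ℤ) * n).natAbs ∧ DePolignac ((Q : ℤ) * (a - n)).natAbs)).card)
    rw [h4] at this
    exact_mod_cast this
  linarith

open Classical in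
private theorem part1 (ε : ℝ) (hε : 0 < ε) :
    ∃ q : ℕ, 0 < q ∧ ∀ Q : ℕ, 0 < Q → q ∣ Q → ∃ X₀ : ℕ, ∀ X : ℕ, X₀ ≤ X → ∀ M : ℕ,
      (1 / 2 - ε) * (X : ℝ) ≤ (((Ioc M (M + X)).filter (fun n => Gap (Q * n))).card : ℝ) := by
  obtain ⟨q, hq, h⟩ := Pool.Agent.H21.GH.half_dens _ Pool.Agent.H21.GH.k4_gap ε hε
  refine ⟨q, hq, fun Q hQ hqQ => ?_⟩
  obtain ⟨X₀, hX⟩ := h Q hQ hqQ
  exact ⟨X₀, fun X hX' M => hX X hX' M⟩

open Classical in
private theorem part2 (Q : ℕ) (ε : ℝ) (hQ : 0 < Q) (h2 : 2 ∣ Q) (hε : 0 < ε) :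
    ∃ X₀ : ℕ, ∀ X : ℕ, X₀ ≤ X → ∀ M : ℕ, (1 / 3 - ε) * (X : ℝ) ≤
      (((Ioc M (M + X)).filter (fun n => Gap (Q * n))).card : ℝ) := by
  obtain ⟨X₀, hX⟩ := Pool.Agent.H21.GH.third_dens _ Pool.Agent.H21.GH.k4_gap Q hQ h2 ε hε
  exact ⟨X₀, fun X hX' M => hX X hX' M⟩

open Classical in
private theorem part3 (r m l : ℕ) (ε : ℝ) (hm : 2 ≤ m) (hε : 0 < ε) :
    ∃ K : ℕ, ∀ H : Finset ℕ, Admissible H → K ≤ H.card → ∀ c : ℕ → Fin r,
      (∃ (i : Fin r) (S : Finset ℕ), S ⊆ H ∧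
        (13 / (50 * (r : ℝ)) - ε) * (H.card : ℝ) ≤ (S.card : ℝ) ∧
        (1 - ε) * (S.card.choose m : ℝ) ≤
          (((powersetCard m S).filter (fun B => Shattered c i H l ε B)).card : ℝ)) ∧
      (1 - ε) * (13 / (50 * (r : ℝ))) ^ (m - 1) * (H.card.choose m : ℝ) ≤
        (((powersetCard m H).filter (fun B => ∃ i, Shattered c i H l ε B)).card : ℝ) := by
  rcases Nat.eq_zero_or_pos r with hr | hr
  · subst hr
    exact ⟨0, fun H _ _ c => (c 0).elim0⟩
  have hr0 : (0 : ℝ) < r := by exact_mod_cast hr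
  obtain ⟨e, he⟩ : ∃ e : ℝ, e = min ε ((13 / 50) / (2 * (r : ℝ))) := ⟨_, rfl⟩
  have he0 : 0 < e := by rw [he]; exact lt_min hε (by positivity)
  have heε : e ≤ ε := by rw [he]; exact min_le_left _ _
  have her : e ≤ (13 / 50) / (2 * (r : ℝ)) := by rw [he]; exact min_le_right _ _
  have he1 : e < 1 := by
    refine her.trans_lt ?_
    have hr1 : (1 : ℝ) ≤ r := by exact_mod_cast hr
    rw [div_lt_one (by positivity)]
    linarith
  have hκr : (13 / 50 : ℝ) / r = 13 / (50 * (r : ℝ)) := by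
    rw [div_div]
  obtain ⟨K1, h1⟩ := Pool.Agent.H21.LA.la_many (13 / 50) (by norm_num) (by norm_num)
    Pool.Agent.H21.CP.Q2 Pool.Agent.H21.CP.Q2_prime Pool.Agent.H21.CP.med r m l hr (by omega) e he0 he1
  obtain ⟨K3, h3⟩ := Pool.Agent.H21.LA.la_clique (13 / 50) (by norm_num) (by norm_num)
    Pool.Agent.H21.CP.Q2 Pool.Agent.H21.CP.Q2_prime Pool.Agent.H21.CP.med r m l hr hm e he0 her
  have hmono : ∀ (c : ℕ → Fin r) (i : Fin r) (H B : Finset ℕ),
      Pool.Agent.H21.LA.Shat2 Pool.Agent.H21.CP.Q2 c i H l e B → Shattered c i H l ε B :=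
    fun c i H B hB => Pool.Agent.H21.LA.shat2_mono _ c i H l heε B hB
  refine ⟨max K1 K3, fun H hH hK c => ⟨?_, ?_⟩⟩
  · obtain ⟨i, S, hS, hS1, hS2⟩ := h3 H hH ((le_max_right _ _).trans hK) c
    rw [hκr] at hS1
    refine ⟨i, S, hS, le_trans ?_ hS1, le_trans ?_ (hS2.trans ?_)⟩
    · exact mul_le_mul_of_nonneg_right (by linarith) (Nat.cast_nonneg _)
    · exact mul_le_mul_of_nonneg_right (by linarith) (Nat.cast_nonneg _)
    · have hsub : (powersetCard m S).filter (fun B => Pool.Agent.H21.LA.Shat2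
          Pool.Agent.H21.CP.Q2 c i H l e B) ⊆
          (powersetCard m S).filter (fun B => Shattered c i H l ε B) := by
        intro B hB
        rw [mem_filter] at hB ⊢
        exact ⟨hB.1, hmono c i H B hB.2⟩
      exact_mod_cast card_le_card hsub
  · have g1 := h1 H hH ((le_max_left _ _).trans hK) c
    rw [hκr] at g1
    refine le_trans ?_ (g1.trans ?_)
    · apply mul_le_mul_of_nonneg_right _ (Nat.cast_nonneg _)
      exact mul_le_mul_of_nonneg_right (by linarith) (by positivity)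
    · have hsub : (powersetCard m H).filter (fun B => ∃ i, Pool.Agent.H21.LA.Shat2
          Pool.Agent.H21.CP.Q2 c i H l e B) ⊆
          (powersetCard m H).filter (fun B => ∃ i, Shattered c i H l ε B) := by
        intro B hB
        rw [mem_filter] at hB ⊢
        obtain ⟨hB1, i, hi⟩ := hB
        exact ⟨hB1, i, hmono c i H B hi⟩
      exact_mod_cast card_le_card hsub

open Classical in
theorem result :
    (∀ (r k l : ℕ) (c : ℕ → Fin r) (ε : ℝ), 1 ≤ k + l → 0 < ε → ∃ q : ℕ, 0 < q ∧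
      ∀ Q : ℕ, 0 < Q → q ∣ Q → ∃ X₀ : ℕ, ∀ X : ℕ, X₀ ≤ X → ∀ M : Fin (k + l) → ℤ,
        (((k : ℝ) + 1) * (13 / (50 * (r : ℝ))) ^ k - ε) * (X : ℝ) ^ (k + l) ≤
          (((Fintype.piFinset fun j => Ico (M j) (M j + X)).filter
            (fun n : Fin (k + l) → ℤ => Full k l c fun j => (Q : ℤ) * n j)).card : ℝ)) ∧
    (∀ ε : ℝ, 0 < ε → ∃ q : ℕ, 0 < q ∧ ∀ Q : ℕ, 0 < Q → q ∣ Q → ∃ X₀ : ℕ, ∀ X : ℕ, X₀ ≤ X → ∀ M a : ℤ,
      (1 / 25 - ε) * (X : ℝ) ≤ (((Ico M (M + X)).filter (fun n : ℤ =>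
        DePolignac ((Q : ℤ) * n).natAbs ∧ DePolignac ((Q : ℤ) * (a - n)).natAbs)).card : ℝ)) ∧
    (∀ ε : ℝ, 0 < ε → ∃ q : ℕ, 0 < q ∧ ∀ Q : ℕ, 0 < Q → q ∣ Q →
      ∃ X₀ : ℕ, ∀ X : ℕ, X₀ ≤ X → ∀ M : ℕ,
        (1 / 2 - ε) * (X : ℝ) ≤ (((Ioc M (M + X)).filter (fun n => Gap (Q * n))).card : ℝ)) ∧
    (∀ (Q : ℕ) (ε : ℝ), 0 < Q → 2 ∣ Q → 0 < ε → ∃ X₀ : ℕ, ∀ X : ℕ, X₀ ≤ X → ∀ M : ℕ,
      (1 / 3 - ε) * (X : ℝ) ≤ (((Ioc M (M + X)).filter (fun n => Gap (Q * n))).card : ℝ)) ∧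
    (∀ (r m l : ℕ) (ε : ℝ), 2 ≤ m → 0 < ε → ∃ K : ℕ, ∀ H : Finset ℕ, Admissible H → K ≤ H.card →
      ∀ c : ℕ → Fin r,
      (∃ (i : Fin r) (S : Finset ℕ), S ⊆ H ∧
        (13 / (50 * (r : ℝ)) - ε) * (H.card : ℝ) ≤ (S.card : ℝ) ∧
        (1 - ε) * (S.card.choose m : ℝ) ≤
          (((powersetCard m S).filter (fun B => Shattered c i H l ε B)).card : ℝ)) ∧
      (1 - ε) * (13 / (50 * (r : ℝ))) ^ (m - 1) * (H.card.choose m : ℝ) ≤
        (((powersetCard m H).filter (fun B => ∃ i, Shattered c i H l ε B)).card : ℝ)) :=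
  ⟨part0, part01, part1, part2, part3⟩

end Pool.Agent.Results.MP_8923e7_nt.TupleDensity
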